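import Mathlib
import Pool.Agent.Helper5.Dg.Pub
import Pool.Agent.Helper5.Dg.Bi4

set_option autoImplicit false

namespace Pool.Agent.Results.MP_1bca0d_an.Dimensions

open Pool.Agent.Helper5.Hd

/-- Both the global dimension and the bidimension of the Banach algebra `C[0,1]` are infinite. -/
theorem result : globalDim C(unitInterval, ℂ) = ⊤ ∧ biDim C(unitInterval, ℂ) = ⊤ :=
  ⟨Pool.Agent.Helper5.Dg.globalDim_hd, Pool.Agent.Helper5.Dg.biDim_hd⟩

end Pool.Agent.Results.MP_1bca0d_an.Dimensions
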