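import Mathlib
import Pool.Agent.Helper5.Dg.Pub
import Pool.Agent.Helper5.Dg.FinG

set_option autoImplicit false

namespace Pool.Agent.Results.MP_1bca0d_an.GlobalDim

open Pool.Agent.Helper5.Hd

/-- The global dimension of the Banach algebra `C[0,1]` is infinite. -/
theorem result : globalDim C(unitInterval, ℂ) = ⊤ := Pool.Agent.Helper5.Dg.globalDim_hd

end Pool.Agent.Results.MP_1bca0d_an.GlobalDim
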